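import Pool.Agent.Helper27.Mess.Defs

/-!
MS-8 (MP_dbae29_al, helper75): exactness at `c β` implies exactness at `β`.
-/

set_option autoImplicit false

namespace Pool.Agent.Helper27.Mess

open Finset
open scoped IsMulCommutative

universe u v w

variable {Γ : Type u} [Group Γ] {C : Type v} [AddCommGroup C] [Module (MonoidAlgebra ℤ Γ) C]

namespace Scale

variable (G : GrRes Γ C) {L : Type w} [Field L]

/-- the operator multiplying a functional by `w i` in degree `i` -/
noncomputable def W (w : ℕ → L) (f : C →+ L) : C →+ L :=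
  ∑ i ∈ range (G.n + 1), w i • f.comp (G.π (i : ℤ)).toAddMonoidHom

theorem W_apply (w : ℕ → L) (f : C →+ L) (x : C) :
    W G w f x = ∑ i ∈ range (G.n + 1), w i * f (G.π (i : ℤ) x) := by
  simp [W, AddMonoidHom.finsetSum_apply]

theorem W_deg (w : ℕ → L) (f : C →+ L) {m : ℕ} {x : C} (hx : G.π (m : ℤ) x = x) :
    W G w f x = w m * f x := by
  rw [W_apply]
  by_cases hm : m ≤ G.n
  · rw [Finset.sum_eq_single m]
    · rw [hx]
    · intro i _ hi
      have : G.π (i : ℤ) x = 0 := by
        conv_lhs => rw [← hx]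
        exact G.π_ne _ _ _ (by exact_mod_cast hi)
      rw [this, map_zero, mul_zero]
    · intro h
      exact absurd (Finset.mem_range.2 (by omega)) h
  · have h0 : x = 0 := by
      rw [← hx]; exact G.π_big _ _ (by push Not at hm; exact_mod_cast hm)
    subst h0
    simp

theorem W_inv {H : Subgroup Γ} (w : ℕ → L) {f : C →+ L} (hf : f ∈ Inv H C L) :
    W G w f ∈ Inv H C L := by
  rw [mem_Inv] at hf ⊢
  intro g hg x
  rw [W_apply, W_apply]
  refine Finset.sum_congr rfl fun i _ => ?_
  rw [map_act, hf g hg]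

/-- additive maps are determined by their values on homogeneous elements -/
theorem ext_deg {f g : C →+ L} (h : ∀ (i : ℕ) (x : C), G.π (i : ℤ) x = x → f x = g x) :
    f = g := by
  ext x
  rw [← G.π_sum x, map_sum, map_sum]
  exact Finset.sum_congr rfl fun i _ => h i _ (G.π_self _ _)

variable {G}
variable {r : ℕ} {a : Fin r → Subgroup.center Γ} (S : DSys G a)

theorem h_deg' {i : ℕ} {x : C} (hx : G.π (i : ℤ) x = x) (k : Fin r →₀ ℕ) :
    S.h k x = 0 ∨ ∃ m : ℕ, m + 1 = i + 2 * k.degree ∧ G.π (m : ℤ) (S.h k x) = S.h k x := by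
  have h1 := S.h_deg k i x
  rw [hx] at h1
  rcases Nat.eq_zero_or_pos (i + 2 * k.degree) with h0 | h0
  · left
    rw [h1]
    refine G.π_neg _ _ ?_
    omega
  · right
    refine ⟨i + 2 * k.degree - 1, by omega, ?_⟩
    have e : (((i + 2 * k.degree - 1 : ℕ)) : ℤ) = i + 2 * (k.degree : ℤ) - 1 := by omega
    rw [e]
    exact h1.symm

theorem prod_scale (β : Fin r → L) (c : L) (k : Fin r →₀ ℕ) :
    ∏ j, (c * β j) ^ k j = c ^ k.degree * ∏ j, β j ^ k j := by
  simp only [mul_pow, Finset.prod_mul_distrib]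
  congr 1
  rw [Finset.prod_pow_eq_pow_sum, Finsupp.degree_eq_sum]

theorem D_scale (β : Fin r → L) {c : L} (hc : c ≠ 0) (f : C →+ L) {i : ℕ} {x : C}
    (hx : G.π (i : ℤ) x = x) :
    S.D (fun j => c * β j) (W G (fun i => c⁻¹ ^ (i / 2)) f) x =
      (if Even i then c else 1) * c⁻¹ ^ (i / 2) * S.D β f x := by
  rw [DSys.D_apply, DSys.D_apply, Finset.mul_sum]
  refine Finset.sum_congr rfl fun k _ => ?_
  rw [prod_scale]
  rcases h_deg' S hx k with h0 | ⟨m, hm, hm'⟩
  · rw [h0]; simp
  · rw [W_deg G _ f hm']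
    have key : c ^ k.degree * c⁻¹ ^ (m / 2) = (if Even i then c else 1) * c⁻¹ ^ (i / 2) := by
      rcases Nat.even_or_odd' i with ⟨l, rfl | rfl⟩
      · have e1 : Even (2 * l) := even_two_mul l
        rw [if_pos e1]
        have e2 : m / 2 + 1 = l + k.degree := by omega
        have e3 : 2 * l / 2 = l := by omega
        rw [e3]
        have h1 : c⁻¹ ^ (m / 2) = c * c⁻¹ ^ (m / 2 + 1) := by
          rw [pow_succ]; field_simp
        rw [h1, e2, pow_add, inv_pow c k.degree]
        have h2 : c ^ k.degree ≠ 0 := pow_ne_zero _ hc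
        field_simp
      · have e1 : ¬ Even (2 * l + 1) := by
          rw [Nat.not_even_iff_odd]; exact ⟨l, rfl⟩
        rw [if_neg e1]
        have e2 : m / 2 = l + k.degree := by omega
        have e3 : (2 * l + 1) / 2 = l := by omega
        rw [e3, e2, pow_add, inv_pow c k.degree]
        have h2 : c ^ k.degree ≠ 0 := pow_ne_zero _ hc
        field_simp
    calc c ^ k.degree * (∏ j, β j ^ k j) * (c⁻¹ ^ (m / 2) * f (S.h k x))
        = (c ^ k.degree * c⁻¹ ^ (m / 2)) * ((∏ j, β j ^ k j) * f (S.h k x)) := by ring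
      _ = _ := by rw [key]

theorem D_parity (β : Fin r → L) (c : L) (f : C →+ L) {i : ℕ} {x : C}
    (hx : G.π (i : ℤ) x = x) :
    S.D β (W G (fun i => if Even i then 1 else c) f) x =
      (if Even i then c else 1) * S.D β f x := by
  rw [DSys.D_apply, DSys.D_apply, Finset.mul_sum]
  refine Finset.sum_congr rfl fun k _ => ?_
  rcases h_deg' S hx k with h0 | ⟨m, hm, hm'⟩
  · rw [h0]; simp
  · rw [W_deg G _ f hm']
    have key : (if Even m then (1 : L) else c) = if Even i then c else 1 := by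
      by_cases hi : Even i
      · have : ¬ Even m := by
          rw [Nat.even_iff] at hi ⊢; omega
        rw [if_pos hi, if_neg this]
      · have : Even m := by
          rw [Nat.even_iff] at hi ⊢; omega
        rw [if_neg hi, if_pos this]
    rw [key]
    ring

end Scale

open Scale in
/-- MS-8: exactness at `c β` implies exactness at `β`. -/
theorem exact_scale {G : GrRes Γ C} {r : ℕ} {a : Fin r → Subgroup.center Γ} (S : DSys G a)
    {L : Type w} [Field L] (H : Subgroup Γ) (β : Fin r → L) (c : L) (hc : c ≠ 0)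
    (hex : ∀ f ∈ Inv H C L, S.D (fun j => c * β j) f = 0 →
      ∃ g ∈ Inv H C L, S.D (fun j => c * β j) g = f) :
    ∀ f ∈ Inv H C L, S.D β f = 0 → ∃ g ∈ Inv H C L, S.D β g = f := by
  intro f hf hDf
  have h1 : S.D (fun j => c * β j) (W G (fun i => c⁻¹ ^ (i / 2)) f) = 0 := by
    refine ext_deg G fun i x hx => ?_
    rw [D_scale S β hc f hx, hDf]
    simp
  obtain ⟨g', hg', hDg'⟩ := hex _ (W_inv G _ hf) h1
  set g'' : C →+ L := W G (fun i => c ^ (i / 2)) g' with hg''
  have h2 : g' = W G (fun i => c⁻¹ ^ (i / 2)) g'' := by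
    refine ext_deg G fun i x hx => ?_
    rw [W_deg G _ _ hx, hg'', W_deg G _ _ hx, ← mul_assoc, ← mul_pow, inv_mul_cancel₀ hc,
      one_pow, one_mul]
  refine ⟨W G (fun i => if Even i then 1 else c) g'', W_inv G _ (W_inv G _ hg'), ?_⟩
  refine ext_deg G fun i x hx => ?_
  rw [D_parity S β c g'' hx]
  have h3 : S.D (fun j => c * β j) g' x = W G (fun i => c⁻¹ ^ (i / 2)) f x := by rw [hDg']
  rw [h2, D_scale S β hc g'' hx, W_deg G _ _ hx] at h3
  have h4 : c⁻¹ ^ (i / 2) ≠ 0 := pow_ne_zero _ (inv_ne_zero hc)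
  apply mul_left_cancel₀ h4
  rw [← h3]
  ring

end Pool.Agent.Helper27.Mess
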